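import Mathlib
import Pool.Agent.H354R2.Pratt

/-!
# The least prime with decimal digit sum `86`

`ρ(86) = 6999999989`, which ends in `89`. So the second and the third assertion of De Koninck's
question (`ρ(k) ≡ 99 mod 100` for all `k > 38`, `ρ(k) ≡ 999 mod 1000` for all `k > 59`) are false.
-/

set_option autoImplicit false

namespace Pool.Agent.Results.MP_70678e_nt.EightySixH12

/-- All numbers below `10 ^ L` with decimal digit sum `k`. -/
def enum : ℕ → ℕ → List ℕ
  | 0, k => if k = 0 then [0] else []
  | L + 1, k => if 9 * (L + 1) < k then [] else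
      (List.range (min 10 (k + 1))).flatMap fun d => (enum L (k - d)).map fun q => 10 * q + d

theorem sum_le (L n : ℕ) (hn : n < 10 ^ L) : (Nat.digits 10 n).sum ≤ 9 * L := by
  induction L generalizing n with
  | zero =>
    have : n = 0 := by simpa using hn
    simp [this]
  | succ L ih =>
    rcases Nat.eq_zero_or_pos n with rfl | h0
    · simp
    · rw [Nat.digits_def' (by norm_num) h0, List.sum_cons]
      have h1 := ih (n / 10) (by rw [pow_succ] at hn; omega)
      have h2 : n % 10 < 10 := Nat.mod_lt _ (by norm_num)
      omega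

theorem mem_enum (L : ℕ) : ∀ n k : ℕ, n < 10 ^ L → (Nat.digits 10 n).sum = k → n ∈ enum L k := by
  induction L with
  | zero =>
    intro n k hn hk
    have h0 : n = 0 := by simpa using hn
    subst h0
    simp only [Nat.digits_zero, List.sum_nil] at hk
    simp [enum, ← hk]
  | succ L ih =>
    intro n k hn hk
    have hle := sum_le (L + 1) n hn
    have h9 : ¬ 9 * (L + 1) < k := by omega
    rw [enum, if_neg h9, List.mem_flatMap]
    have hsum : (Nat.digits 10 n).sum = n % 10 + (Nat.digits 10 (n / 10)).sum := by
      rcases Nat.eq_zero_or_pos n with rfl | h0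
      · simp
      · rw [Nat.digits_def' (by norm_num) h0, List.sum_cons]
    refine ⟨n % 10, ?_, ?_⟩
    · rw [List.mem_range]
      have h2 : n % 10 < 10 := Nat.mod_lt _ (by norm_num)
      omega
    · rw [List.mem_map]
      refine ⟨n / 10, ih _ _ (by rw [pow_succ] at hn; omega) (by omega), ?_⟩
      omega

/-- The candidates below `6999999989` are divisible by small primes. -/
theorem check : (enum 10 86).all (fun n => decide (6999999989 ≤ n) ||
    [7, 19, 31, 61, 827, 3011, 6089].any fun q => n % q == 0) = true := by
  decide +kernel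

theorem prime86 : Nat.Prime 6999999989 := by
  refine Pool.Agent.H354R2.pratt 6999999989 2 33 [2, 2, 19, 373, 246931] ?_ (by decide +kernel)
  intro q hq
  simp only [List.mem_cons, List.not_mem_nil, or_false] at hq
  rcases hq with rfl | rfl | rfl | rfl | rfl <;> norm_num

theorem isLeast86 : IsLeast {p : ℕ | p.Prime ∧ (Nat.digits 10 p).sum = 86} 6999999989 := by
  refine ⟨⟨prime86, by norm_num⟩, ?_⟩
  rintro q ⟨hq, hs⟩
  by_contra hlt
  push Not at hlt
  have hmem := mem_enum 10 q 86 (by omega) hs
  have h1 := (List.all_eq_true.1 check) q hmem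
  rw [Bool.or_eq_true, decide_eq_true_eq] at h1
  rcases h1 with h1 | h1
  · omega
  · rw [List.any_eq_true] at h1
    obtain ⟨r, hr, hr2⟩ := h1
    have hdvd : r ∣ q := Nat.dvd_of_mod_eq_zero (by simpa using hr2)
    have hr3 : 1 < r ∧ r < 10000 := by
      simp only [List.mem_cons, List.not_mem_nil, or_false] at hr
      omega
    rcases (Nat.dvd_prime hq).1 hdvd with h | h
    · omega
    · have hsmall := sum_le 4 q (by omega)
      omega

/-- The least prime with decimal digit sum `86` is `6999999989`; hence it is false that the least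
prime with digit sum `k` ends in `99` for every `k > 38`, and it is false that it ends in `999` for
every `k > 59`. -/
theorem result :
    IsLeast {p : ℕ | p.Prime ∧ (Nat.digits 10 p).sum = 86} 6999999989 ∧
    ¬ (∀ k : ℕ, 38 < k → ∀ p : ℕ,
        IsLeast {p : ℕ | p.Prime ∧ (Nat.digits 10 p).sum = k} p → p % 100 = 99) ∧
    ¬ (∀ k : ℕ, 59 < k → ∀ p : ℕ,
        IsLeast {p : ℕ | p.Prime ∧ (Nat.digits 10 p).sum = k} p → p % 1000 = 999) := by
  refine ⟨isLeast86, fun h => ?_, fun h => ?_⟩
  · have := h 86 (by norm_num) _ isLeast86
    norm_num at this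
  · have := h 86 (by norm_num) _ isLeast86
    norm_num at this

end Pool.Agent.Results.MP_70678e_nt.EightySixH12
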